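import Pool.Agent.H14.KB.KobInd
import Pool.Agent.H17BP.Final

/-!
# Pseudo Brody hyperbolic surfaces are Kobayashi hyperbolic modulo a proper closed subset
-/

open Topology Filter MvPolynomial Metric

noncomputable section

namespace Pool.Agent.H14.KB

open Pool.Agent Pool.Agent.H17BP
open Pool.Agent.H17 (PN VanishesAt ZariskiClosedIn HolomorphicInto puncturedDisc PseudoBrodyHyperbolic
  PseudoPicardHyperbolic)
open Pool.Agent.H62.FC (Homog)

variable {N : ℕ} {P : Ideal (MvPolynomial (Fin (N + 1)) ℂ)}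

/-- `X` is Kobayashi hyperbolic modulo the set of the zeros of `Q`, a form of degree `D`: for every
holomorphic map `f` from the unit disc to `X`, with a lift `F` near `0`, the length of the derivative
of `f` at `0` with respect to the Fubini–Study metric (that is, the distance of `F' 0` from the line
through `F 0`, divided by the norm of `F 0`), multiplied by a power of `|Q (F 0)| / |F 0| ^ D`, is at
most `C`. -/
def KobayashiHyperbolicModulo (X : Set (PN N)) (Q : MvPolynomial (Fin (N + 1)) ℂ) (D : ℕ) : Prop :=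
  ∃ (M : ℕ) (C : ℝ), ∀ (f : ℂ → PN N) (F : ℂ → Fin (N + 1) → ℂ), HolomorphicInto f (ball 0 1) →
    (∀ z ∈ ball (0 : ℂ) 1, f z ∈ X) → AnalyticAt ℂ F 0 →
    (∀ᶠ z in 𝓝 (0 : ℂ), ∃ h : F z ≠ 0, f z = Projectivization.mk ℂ (F z) h) →
    ∃ a : ℂ, (‖eval (F 0) Q‖ / ‖F 0‖ ^ D) ^ M * ‖deriv F 0 - a • F 0‖ ≤ C * ‖F 0‖

/-- `X` is Kobayashi hyperbolic modulo a proper Zariski closed subset. -/
def PseudoKobayashiHyperbolic (X : Set (PN N)) : Prop :=
  ∃ (Q : MvPolynomial (Fin (N + 1)) ℂ) (D : ℕ), Q.IsHomogeneous D ∧ (∃ x ∈ X, ¬ VanishesAt Q x) ∧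
    KobayashiHyperbolicModulo X Q D

/-- the model of a pseudo Brody hyperbolic surface -/
theorem exists_model [hPp : P.IsPrime] (hP : Homog P) (hX : Surface (cone P))
    (hthin : ∀ σ τ, IsChart (cone P) σ τ → ∀ (d : ℕ) (Q : MvPolynomial (Fin (N + 1)) ℂ), Q.IsHomogeneous d →
      Q ∉ P → ∃ᶠ p in 𝓝 (0 : ℂ × ℂ), eval (σ p) Q ≠ 0)
    {M D₀ : ℕ} (hM : 1 ≤ M) {Ω : (Fin (N + 1) → ℂ) → (Fin (N + 1) → ℂ) → (Fin (N + 1) → ℂ) → ℂ}
    (hΩ : IsForm (cone P) M 1 Ω) {Q₀ : MvPolynomial (Fin (N + 1)) ℂ} (hQ₀ : Q₀.IsHomogeneous D₀) (hQ₀P : Q₀ ∉ P)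
    (hz : NoZeros (cone P) {x | x ∈ cone P ∧ eval x Q₀ = 0} Ω) {Ξ : Set (PN N)}
    (hΞ : ZariskiClosedIn (variety P) Ξ) (hne : Ξ ≠ variety P)
    (hbr : ∀ f : ℂ → PN N, HolomorphicInto f Set.univ → (∀ z, f z ∈ variety P) →
      (∃ z w, f z ≠ f w) → ∀ z, f z ∈ Ξ) :
    ∃ (Q : MvPolynomial (Fin (N + 1)) ℂ) (D : ℕ), Q.IsHomogeneous D ∧ Q ∉ P ∧
      (∃ x ∈ variety P, ¬ VanishesAt Q x) ∧ (∀ x ∈ Ξ, VanishesAt Q x) ∧
      Model (cone P) {x | x ∈ cone P ∧ eval x Q = 0} M 1 Ω (fun (_ : Unit) x => eval x Q) D := by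
  classical
  obtain ⟨S, hS, rfl⟩ := hΞ
  -- a form which vanishes on the exceptional set
  obtain ⟨x₁, hx₁, hx₁S⟩ : ∃ x ∈ variety P, ∃ Q ∈ S, ¬ VanishesAt Q x := by
    by_contra hcon
    push Not at hcon
    apply hne
    ext x
    exact ⟨fun h => h.1, fun h => ⟨h, hcon x h⟩⟩
  obtain ⟨Q₁, hQ₁S, hQ₁x⟩ := hx₁S
  obtain ⟨d₁, hQ₁⟩ := hS Q₁ hQ₁S
  have hQ₁P : Q₁ ∉ P := fun h => hQ₁x (hx₁.1 Q₁ h d₁ hQ₁)
  obtain ⟨l, hl⟩ : ∃ l, x₁.rep l ≠ 0 := by
    by_contra hcon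
    push Not at hcon
    exact x₁.rep_nonzero (funext hcon)
  have hlP : (X l : MvPolynomial (Fin (N + 1)) ℂ) ∉ P := by
    intro h
    have := ((rep_mem_cone hP).2 hx₁).2 _ h
    rw [eval_X] at this
    exact hl this
  set Q : MvPolynomial (Fin (N + 1)) ℂ := Q₀ * Q₁ * X l with hQdef
  have hQhom : Q.IsHomogeneous (D₀ + d₁ + 1) := (hQ₀.mul hQ₁).mul (isHomogeneous_X ℂ l)
  have hQP : Q ∉ P := by
    intro h
    rcases hPp.mem_or_mem h with h | h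
    · rcases hPp.mem_or_mem h with h | h
      · exact hQ₀P h
      · exact hQ₁P h
    · exact hlP h
  refine ⟨Q, D₀ + d₁ + 1, hQhom, hQP, ?_, ?_, ?_⟩
  · -- properness
    obtain ⟨σ, τ, h, -⟩ := hX.chart x₁.rep ((rep_mem_cone hP).2 hx₁)
    obtain ⟨p, hp1, hp2⟩ := ((hthin σ τ h _ Q hQhom hQP).and_eventually h.σ_mem).exists
    have h3 : Projectivization.mk ℂ (σ p) hp2.1 ∈ variety P := (mk_mem_variety hP hp2.1 hX.smul).2 hp2
    exact ⟨_, h3, fun h4 => hp1 ((vanishesAt_mk hQhom hp2.1).1 h4)⟩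
  · intro x hx
    have h1 : eval x.rep Q₁ = 0 := hx.2 Q₁ hQ₁S
    show eval x.rep Q = 0
    rw [hQdef, map_mul, map_mul, h1, mul_zero, zero_mul]
  · refine ⟨hX, hM, le_rfl, hΩ, ?_, ⟨by omega, ?_, ?_, ?_, ?_⟩, ?_, ?_⟩
    · intro x hx hxB v hv w hw hi
      refine hz x hx (fun h => hxB ⟨hx, ?_⟩) v hv w hw hi
      rw [hQdef, map_mul, map_mul, h.2, zero_mul, zero_mul]
    · intro _ x
      have h : ∀ i : Fin (N + 1), AnalyticAt ℂ (fun y : Fin (N + 1) → ℂ => y i) x := fun i =>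
        (ContinuousLinearMap.proj (R := ℂ) (φ := fun _ : Fin (N + 1) => ℂ) i).analyticAt x
      have := AnalyticAt.aeval_mvPolynomial (𝕜 := ℂ) h Q
      simpa [MvPolynomial.aeval_eq_eval] using this
    · intro _ c x
      exact eval_smul_form hQhom c x
    · intro x
      exact ⟨fun h => ⟨h.1, fun _ => h.2⟩, fun h => ⟨h.1, h.2 ()⟩⟩
    · intro x hx
      exact ⟨(), Eventually.of_forall fun y hy h => ⟨hy, h⟩⟩
    · intro σ τ h
      exact (hthin σ τ h _ Q hQhom hQP).mono fun p hp hpB => hp hpB.2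
    · -- Brody
      rintro f hf hfX ⟨z₁, hz₁⟩ z w
      by_contra hzw
      have hf0 : ∀ z, f z ≠ 0 := fun z => (hfX z).1
      let F : ℂ → PN N := fun z => Projectivization.mk ℂ (f z) (hf0 z)
      have hF : HolomorphicInto F Set.univ := by
        intro z₀ _
        obtain ⟨G, hG, hG0, he⟩ := hf z₀
        refine ⟨G, hG, ?_⟩
        filter_upwards [he, hG.continuousAt.eventually_ne hG0] with z h1 h2
        exact ⟨h2, h1.mk_eq (hf0 z) h2⟩
      have h1 := hbr F hF (fun z => (mk_mem_variety hP (hf0 z) hX.smul).2 (hfX z)) ⟨z, w, fun h => by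
        rw [Projectivization.mk_eq_mk_iff'] at h
        obtain ⟨a, ha⟩ := h
        refine hzw ⟨a, ?_, ha.symm⟩
        rintro rfl
        rw [zero_smul] at ha
        exact hf0 z ha.symm⟩ z₁
      have h2 := h1.2 Q₁ hQ₁S
      rw [vanishesAt_mk hQ₁] at h2
      apply hz₁
      refine ⟨hfX z₁, ?_⟩
      rw [hQdef, map_mul, map_mul, h2, mul_zero, zero_mul]

/-- from functions to maps into projective space -/
theorem kobayashi_of_kob (hP : Homog P) {Q : MvPolynomial (Fin (N + 1)) ℂ} {D : ℕ}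
    (h : Kob (cone P) (fun (_ : Unit) x => eval x Q) D) :
    KobayashiHyperbolicModulo (variety P) Q D := by
  obtain ⟨M, C, -, -, hk⟩ := h
  refine ⟨M, C, fun f F hf hfX hF hFf => ?_⟩
  obtain ⟨a, ha⟩ := hk (fun z => (f z).rep) F (fun z hz => by
    have hz' : z ∈ ball (0 : ℂ) 1 := by simpa using hz
    exact ⟨holP_rep hf hz', (rep_mem_cone hP).2 (hfX z hz')⟩) hF hFf.self_of_nhds.1 (by
    filter_upwards [hFf] with z hz
    obtain ⟨h1, h2⟩ := hz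
    obtain ⟨c, hc, h3⟩ := rep_mk_fin h1
    exact ⟨c, hc, by rw [h2, h3]⟩)
  refine ⟨a, ?_⟩
  have h1 : rhoS (fun (_ : Unit) x => eval x Q) D (F 0) = ‖eval (F 0) Q‖ / ‖F 0‖ ^ D := by
    unfold rhoS
    congr 1
    refine le_antisymm ((pi_norm_le_iff_of_nonneg (norm_nonneg _)).mpr fun _ => le_rfl) ?_
    exact norm_le_pi_norm (fun _ : Unit => eval (F 0) Q) ()
  rw [h1] at ha
  exact ha

/-- A pseudo Brody hyperbolic variety with a section of a multiple of the canonical bundle minus a hyperplane is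
Kobayashi hyperbolic modulo a proper closed subset. -/
theorem kobayashi_of_brody [hPp : P.IsPrime] (hP : Homog P) (hX : Surface (cone P))
    (hthin : ∀ σ τ, IsChart (cone P) σ τ → ∀ (d : ℕ) (Q : MvPolynomial (Fin (N + 1)) ℂ), Q.IsHomogeneous d →
      Q ∉ P → ∃ᶠ p in 𝓝 (0 : ℂ × ℂ), eval (σ p) Q ≠ 0)
    {M D₀ : ℕ} (hM : 1 ≤ M) {Ω : (Fin (N + 1) → ℂ) → (Fin (N + 1) → ℂ) → (Fin (N + 1) → ℂ) → ℂ}
    (hΩ : IsForm (cone P) M 1 Ω) {Q₀ : MvPolynomial (Fin (N + 1)) ℂ} (hQ₀ : Q₀.IsHomogeneous D₀) (hQ₀P : Q₀ ∉ P)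
    (hz : NoZeros (cone P) {x | x ∈ cone P ∧ eval x Q₀ = 0} Ω) (hb : PseudoBrodyHyperbolic (variety P)) :
    PseudoKobayashiHyperbolic (variety P) := by
  obtain ⟨Ξ, hΞ, hne, hbr⟩ := hb
  obtain ⟨Q, D, hQ, -, hex, -, hmodel⟩ := exists_model hP hX hthin hM hΩ hQ₀ hQ₀P hz hΞ hne hbr
  exact ⟨Q, D, hQ, hex, kobayashi_of_kob hP (kob_of_model hmodel)⟩

end Pool.Agent.H14.KB
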