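import Pool.Agent.H14.KB.KobFinal
import Pool.Agent.H36.BP.MainA

/-!
# Kobayashi hyperbolicity modulo a curve implies Brody hyperbolicity modulo this curve
-/

open Topology Filter MvPolynomial Metric

noncomputable section

namespace Pool.Agent.H14.KB

open Pool.Agent Pool.Agent.H17BP
open Pool.Agent.H17 (PN VanishesAt ZariskiClosedIn HolomorphicInto puncturedDisc)

variable {N : ℕ}

/-- a curve whose derivative is proportional to it is constant as a map into projective space -/
theorem const_of_deriv {F : ℂ → Fin (N + 1) → ℂ} {z₁ : ℂ} (hF : AnalyticAt ℂ F z₁) (h0 : F z₁ ≠ 0)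
    (h : ∀ᶠ z in 𝓝 z₁, ∃ a : ℂ, deriv F z = a • F z) :
    ∀ᶠ z in 𝓝 z₁, ∃ c : ℂ, c ≠ 0 ∧ F z = c • F z₁ := by
  obtain ⟨j, hj⟩ : ∃ j, F z₁ j ≠ 0 := by
    by_contra hcon
    push Not at hcon
    exact h0 (funext hcon)
  have hFj : ∀ i, AnalyticAt ℂ (fun z => F z i) z₁ := fun i => (analyticAt_pi_iff.1 hF) i
  have hjne : ∀ᶠ z in 𝓝 z₁, F z j ≠ 0 := (hFj j).continuousAt.eventually_ne hj
  obtain ⟨r, hr, hball⟩ := Metric.eventually_nhds_iff_ball.1 (h.and (hjne.and hF.eventually_analyticAt))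
  have hconst : ∀ i, ∀ z ∈ ball z₁ r, F z i / F z j = F z₁ i / F z₁ j := by
    intro i z hz
    have hd : ∀ w ∈ ball z₁ r, HasDerivAt (fun w => F w i / F w j) 0 w := by
      intro w hw
      obtain ⟨⟨a, ha⟩, h1, h2⟩ := hball w hw
      have h3 := hasDerivAt_pi.1 h2.differentiableAt.hasDerivAt
      have h4 := (h3 i).div (h3 j) h1
      have h5 : (deriv F w i * F w j - F w i * deriv F w j) / F w j ^ 2 = 0 := by
        rw [ha]
        simp only [Pi.smul_apply, smul_eq_mul]
        rw [div_eq_zero_iff]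
        left
        ring
      rw [h5] at h4
      exact h4
    have hdiff : DifferentiableOn ℂ (fun w => F w i / F w j) (ball z₁ r) := fun w hw =>
      (hd w hw).differentiableAt.differentiableWithinAt
    exact (convex_ball z₁ r).is_const_of_fderivWithin_eq_zero hdiff (fun w hw => by
      rw [fderivWithin_of_isOpen isOpen_ball hw]
      ext
      rw [(hd w hw).hasFDerivAt.fderiv]
      simp) hz (mem_ball_self hr)
  filter_upwards [ball_mem_nhds z₁ hr] with z hz
  obtain ⟨-, h1, -⟩ := hball z hz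
  refine ⟨F z j / F z₁ j, div_ne_zero h1 hj, ?_⟩
  funext i
  have h2 := hconst i z hz
  simp only [Pi.smul_apply, smul_eq_mul]
  rw [div_eq_div_iff h1 hj] at h2
  field_simp
  linear_combination h2

/-- **Kobayashi hyperbolicity modulo a curve implies Brody hyperbolicity modulo this curve.** -/
theorem brody_of_kobayashi {U : Set (PN N)} {Q : MvPolynomial (Fin (N + 1)) ℂ} {D : ℕ}
    (hQ : Q.IsHomogeneous D) (h : KobayashiHyperbolicModulo U Q D) {f : ℂ → PN N}
    (hf : HolomorphicInto f Set.univ) (hfU : ∀ z, f z ∈ U) (hne : ∃ z w, f z ≠ f w) (z : ℂ) :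
    VanishesAt Q (f z) := by
  by_contra hz
  obtain ⟨M, C, hk⟩ := h
  obtain ⟨F, hF, hFf⟩ := hf z (Set.mem_univ z)
  have hF0 : F z ≠ 0 := hFf.self_of_nhds.choose
  have hQz : eval (F z) Q ≠ 0 := by
    obtain ⟨h1, h2⟩ := hFf.self_of_nhds
    intro h3
    apply hz
    rw [h2]
    exact (vanishesAt_mk hQ h1).2 h3
  have hQan : AnalyticAt ℂ (fun w => eval (F w) Q) z := by
    have := AnalyticAt.aeval_mvPolynomial (𝕜 := ℂ) (fun i => (analyticAt_pi_iff.1 hF) i) Q
    simpa [MvPolynomial.aeval_eq_eval] using this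
  -- the derivative is proportional to the curve
  have key : ∀ᶠ w in 𝓝 z, ∃ a : ℂ, deriv F w = a • F w := by
    filter_upwards [hFf.eventually_nhds, hQan.continuousAt.eventually_ne hQz, hF.eventually_analyticAt,
      hF.continuousAt.eventually_ne hF0] with w h1 h2 h3 h4
    set t : ℝ := ‖eval (F w) Q‖ / ‖F w‖ ^ D with ht
    have hFw : 0 < ‖F w‖ := norm_pos_iff.2 h4
    have ht0 : 0 < t := div_pos (norm_pos_iff.2 h2) (pow_pos hFw _)
    have hbd : ∀ R : ℝ, 0 < R → ∃ a : ℂ, ‖deriv F w - a • F w‖ ≤ (C * ‖F w‖ / t ^ M) / R := by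
      intro R hR
      have hRc : (R : ℂ) ≠ 0 := by exact_mod_cast hR.ne'
      have haff : ∀ u : ℂ, AnalyticAt ℂ (fun u : ℂ => w + R * u) u := fun u =>
        analyticAt_const.add (analyticAt_const.mul analyticAt_id)
      have htd : Tendsto (fun u : ℂ => w + R * u) (𝓝 0) (𝓝 w) := by
        have := (haff 0).continuousAt.tendsto
        simpa using this
      obtain ⟨a, ha⟩ := hk (fun u => f (w + R * u)) (fun u => F (w + R * u)) (by
        intro u _
        obtain ⟨φ, hφ, he⟩ := hf (w + R * u) (Set.mem_univ _)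
        exact ⟨fun u => φ (w + R * u), AnalyticAt.comp (g := φ) (f := fun u : ℂ => w + R * u) hφ (haff u),
          (haff u).continuousAt.tendsto.eventually he⟩) (fun u _ => hfU _)
        (AnalyticAt.comp (g := F) (f := fun u : ℂ => w + R * u) (by simpa using h3) (haff 0))
        (htd.eventually h1)
      have hd : HasDerivAt (fun u : ℂ => F (w + R * u)) ((R : ℂ) • deriv F w) 0 := by
        have h5 : HasDerivAt (fun u : ℂ => w + R * u) (R : ℂ) 0 := by
          simpa using ((hasDerivAt_id (0 : ℂ)).const_mul (R : ℂ)).const_add w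
        have h6 : HasDerivAt F (deriv F w) ((fun u : ℂ => w + R * u) 0) := by
          simpa using h3.differentiableAt.hasDerivAt
        exact h6.scomp 0 h5
      rw [hd.deriv] at ha
      simp only [mul_zero, add_zero] at ha
      refine ⟨a / R, ?_⟩
      have h5 : (R : ℂ) • deriv F w - a • F w = (R : ℂ) • (deriv F w - (a / R) • F w) := by
        rw [smul_sub, smul_smul, mul_div_cancel₀ _ hRc]
      rw [h5, norm_smul, Complex.norm_real, Real.norm_of_nonneg hR.le, ← ht] at ha
      rw [le_div_iff₀ hR, le_div_iff₀ (pow_pos ht0 M)]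
      calc ‖deriv F w - (a / R) • F w‖ * R * t ^ M = t ^ M * (R * ‖deriv F w - (a / R) • F w‖) := by ring
        _ ≤ C * ‖F w‖ := ha
    have hcl : IsClosed ((ℂ ∙ F w : Submodule ℂ (Fin (N + 1) → ℂ)) : Set (Fin (N + 1) → ℂ)) :=
      Submodule.closed_of_finiteDimensional _
    have hmem : deriv F w ∈ (ℂ ∙ F w : Submodule ℂ (Fin (N + 1) → ℂ)) := by
      have h5 : ∀ n : ℕ, ∃ a : ℂ, ‖deriv F w - a • F w‖ ≤ (C * ‖F w‖ / t ^ M) / ((n : ℝ) + 1) := fun n =>
        hbd _ (by positivity)
      choose a ha using h5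
      have h6 : Tendsto (fun n => a n • F w) atTop (𝓝 (deriv F w)) := by
        rw [tendsto_iff_norm_sub_tendsto_zero]
        refine squeeze_zero (fun n => norm_nonneg _) (fun n => ?_)
          (tendsto_const_div_atTop_nhds_zero_nat (C * ‖F w‖ / t ^ M) |>.comp (tendsto_add_atTop_nat 1))
        have := ha n
        rw [norm_sub_rev]
        simpa using this
      exact hcl.mem_of_tendsto h6 (Filter.Eventually.of_forall fun n =>
        Submodule.smul_mem _ _ (Submodule.mem_span_singleton_self _))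
    obtain ⟨a, ha⟩ := Submodule.mem_span_singleton.1 hmem
    exact ⟨a, ha.symm⟩
  have hloc : ∀ᶠ w in 𝓝 z, f w = f z := by
    filter_upwards [const_of_deriv hF hF0 key, hFf] with w h1 h2
    obtain ⟨c, hc, h3⟩ := h1
    obtain ⟨h4, h5⟩ := h2
    obtain ⟨h6, h7⟩ := hFf.self_of_nhds
    rw [h5, h7, Projectivization.mk_eq_mk_iff']
    exact ⟨c, h3.symm⟩
  have hall := Pool.Agent.H36.BP.const_identity isPreconnected_univ hf (Set.mem_univ z) hloc
  obtain ⟨u, w, huw⟩ := hne
  exact huw ((hall u (Set.mem_univ u)).trans (hall w (Set.mem_univ w)).symm)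

/-- Kobayashi hyperbolic modulo a proper subset implies pseudo Brody hyperbolic. -/
theorem pseudoBrody_of_kobayashi {U : Set (PN N)} (h : PseudoKobayashiHyperbolic U) :
    Pool.Agent.H17.PseudoBrodyHyperbolic U := by
  obtain ⟨Q, D, hQ, ⟨x, hx, hxQ⟩, hk⟩ := h
  refine ⟨{x | x ∈ U ∧ ∀ P ∈ ({Q} : Set (MvPolynomial (Fin (N + 1)) ℂ)), VanishesAt P x},
    ⟨{Q}, fun P hP => ⟨D, by rw [Set.mem_singleton_iff.1 hP]; exact hQ⟩, rfl⟩, ?_, ?_⟩
  · intro h1
    rw [← h1] at hx
    exact hxQ (hx.2 Q rfl)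
  · intro f hf hfU hne z
    refine ⟨hfU z, fun P hP => ?_⟩
    rw [Set.mem_singleton_iff.1 hP]
    exact brody_of_kobayashi hQ hk hf hfU hne z

end Pool.Agent.H14.KB
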