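import Pool.Agent.H14.KB.Kob
import Pool.Agent.H17BP.Nodal

/-!
# Kobayashi hyperbolicity modulo the curve: the nodal case
-/

open Topology Filter Metric

noncomputable section

namespace Pool.Agent.H14.KB

open Pool.Agent Pool.Agent.H17BP
open Pool.Agent.H17 (PN HolomorphicInto)
open Pool.Agent.H36.BP

/-- The metric theorem for surfaces in `ℙ(V)`. -/
theorem nodal_metric {V : Type} [NormedAddCommGroup V] [NormedSpace ℂ V] {N : ℕ} (L : V ≃L[ℂ] EN N)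
    {W : Type} [NormedAddCommGroup W] [InnerProductSpace ℂ W] {X B : Set V} {m j : ℕ}
    {Ω : V → V → V → ℂ} {Q : V → W} {D : ℕ} (hX : Surface X) (hQ : ∀ x, AnalyticAt ℂ Q x)
    (hQs : ∀ (c : ℂ) (x : V), Q (c • x) = c ^ D • Q x) (hB : ∀ x, x ∈ B ↔ x ∈ X ∧ Q x = 0)
    (hn : ∀ x ∈ X, NodalAt X B x) (hm : 1 ≤ m) (hj : 1 ≤ j) (hΩ : IsForm X m j Ω)
    (hz : NoZeros X B Ω) :
    Pool.Agent.H14.PP.IsEq (L.symm ⁻¹' X : Set (EN N)) (L.symm ⁻¹' B) (fun y => Q (L.symm y)) D ∧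
    ∃ (M : ℕ) (c₀ C : ℝ) (G : EN N → EN N → ℝ), MetricData (L.symm ⁻¹' X : Set (EN N))
      ((L.symm ⁻¹' X : Set (EN N)) ∩ L.symm ⁻¹' B) G
      (Pool.Agent.H14.PP.rho (fun y => Q (L.symm y)) D) M c₀ C := by
  set X' : Set (EN N) := L.symm ⁻¹' X with hX'
  set T' : Set (EN N) := L.symm ⁻¹' B with hT'
  have hBs : ∀ x ∈ B, ∀ c : ℂ, c ≠ 0 → c • x ∈ B := by
    intro x hx c hc
    obtain ⟨h1, h2⟩ := (hB x).mp hx
    exact (hB _).mpr ⟨hX.smul x h1 c hc, by rw [hQs, h2, smul_zero]⟩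
  have hBX : B ⊆ X := fun x hx => ((hB x).mp hx).1
  have hcone : Pool.Agent.H14.PP.IsCone X' := isCone_transport L hX
  have hT's : ∀ x ∈ T', ∀ c : ℂ, c ≠ 0 → c • x ∈ T' := by
    intro x hx c hc
    show L.symm (c • x) ∈ B
    rw [map_smul]
    exact hBs _ hx c hc
  have hopen : Pool.Agent.H14.PP.IsOpenPart X' X' := ⟨le_refl _, hcone.smul_mem, fun x _ => Filter.Eventually.of_forall fun y h => h⟩
  have hnodal : Pool.Agent.H14.PP.IsNodal X' X' T' := by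
    intro x hx
    have hxB : L.symm x ∈ B := hx
    obtain ⟨σ, τ, hc, h0, h1⟩ := hn (L.symm x) (hBX hxB)
    have hg := germ_transport L hc
    have hLσ0 : L (σ 0) = x := by rw [h0, L.apply_symm_apply]
    have hiff : ∀ p, (L (σ p) ∈ T' ↔ σ p ∈ B) := by
      intro p
      show L.symm (L (σ p)) ∈ B ↔ _
      rw [L.symm_apply_apply]
    have hiffX : ∀ᶠ p in 𝓝 (0 : ℂ × ℂ), L (σ p) ∈ X' := by
      filter_upwards [hc.σ_mem] with p hp
      show L.symm (L (σ p)) ∈ X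
      rwa [L.symm_apply_apply]
    have hd : ∀ᶠ p in 𝓝 (0 : ℂ × ℂ), (L (σ p) ∉ X' ↔ (((false, false) : Bool × Bool).1 = true ∧ p.1 = 0) ∨
        (((false, false) : Bool × Bool).2 = true ∧ p.2 = 0)) := by
      filter_upwards [hiffX] with p hp
      simp [hp]
    rcases h1 with h1 | h1 | h1
    · exfalso
      have h2 := h1.self_of_nhds
      rw [h0] at h2
      exact h2 hxB
    · have hnd : ∀ᶠ p in 𝓝 (0 : ℂ × ℂ), (L (σ p) ∈ T' ↔ p.1 = 0 ∨ (false = true ∧ p.2 = 0)) := by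
        filter_upwards [h1] with p hp
        rw [hiff, hp]
        simp
      obtain ⟨χ, h2, h3, h4, h5⟩ := exists_chart hcone hcone.smul_mem hT's hg hnd hd
      refine ⟨χ, false, (false, false), ?_, ?_, h4, h5, by simp⟩
      · rwa [hLσ0] at h2
      · rwa [hLσ0] at h3
    · have hnd : ∀ᶠ p in 𝓝 (0 : ℂ × ℂ), (L (σ p) ∈ T' ↔ p.1 = 0 ∨ (true = true ∧ p.2 = 0)) := by
        filter_upwards [h1] with p hp
        rw [hiff, hp]
        simp
      obtain ⟨χ, h2, h3, h4, h5⟩ := exists_chart hcone hcone.smul_mem hT's hg hnd hd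
      refine ⟨χ, true, (false, false), ?_, ?_, h4, h5, by simp⟩
      · rwa [hLσ0] at h2
      · rwa [hLσ0] at h3
  have heq : Pool.Agent.H14.PP.IsEq X' T' (fun y => Q (L.symm y)) D := by
    refine ⟨fun x => (hQ _).comp ((L.symm : EN N →L[ℂ] V).analyticAt x), fun c x => ?_, fun x => ?_⟩
    · show Q (L.symm (c • x)) = _
      rw [map_smul, hQs]
    · exact hB (L.symm x)
  have hnz : (formT L hΩ).NoZeroOff T' := by
    intro x hx hxT v w hv hw hli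
    refine hz (L.symm x) hx hxT _ (tan_transport L hv) _ (tan_transport L hw) ?_
    have h1 := hli.map' ((L.symm : EN N →L[ℂ] V) : EN N →ₗ[ℂ] V) (LinearMap.ker_eq_bot.mpr L.symm.injective)
    have h2 : (((L.symm : EN N →L[ℂ] V) : EN N →ₗ[ℂ] V) ∘ ![x, v, w]) = ![L.symm x, L.symm v, L.symm w] := by
      funext i
      fin_cases i <;> rfl
    rw [h2] at h1
    exact h1
  have hpole : (formT L hΩ).PoleBound X' := by
    intro χ d hd
    have hdf : d = (false, false) := by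
      have h1 : d.1 = false := by
        by_contra h
        have h2 : d.1 = true := by simpa using h
        have h3 := (hd 0 (mem_ball_self (by norm_num))).mpr (Or.inl ⟨h2, rfl⟩)
        exact h3 (χ.σ_mem 0 (mem_ball_self (by norm_num))).1
      have h1' : d.2 = false := by
        by_contra h
        have h2 : d.2 = true := by simpa using h
        have h3 := (hd 0 (mem_ball_self (by norm_num))).mpr (Or.inr ⟨h2, rfl⟩)
        exact h3 (χ.σ_mem 0 (mem_ball_self (by norm_num))).1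
      exact Prod.ext h1 h1'
    refine ⟨fun p => Pool.Agent.H14.PP.aCoef (formT L hΩ) χ p, fun p hp => ?_, fun p hp _ => ?_⟩
    · refine (formT L hΩ).analytic χ.σ p (χ.σ_an p hp) ?_
      filter_upwards [isOpen_ball.mem_nhds hp] with q hq
      exact (χ.σ_mem q hq).1
    · rw [hdf]
      simp [Pool.Agent.H14.PP.gD]
  exact ⟨heq, Pool.Agent.H14.PP.exists_metric hcone hopen (fun x hx hxn => absurd hx hxn) heq hnodal hm hj (formT L hΩ) hnz hpole
    (hur_of_closed hcone.smul_mem (fun x hx hx0 => (hcone.closed.closure_subset_iff.mpr (Set.subset_insert 0 X') hx).resolve_left hx0))⟩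

/-- the point of `ℙ^N` of a vector -/
def ptN {N : ℕ} (x₁ : Fin (N + 1) → ℂ) (hx₁ : x₁ ≠ 0) (x : Fin (N + 1) → ℂ) : PN N :=
  open Classical in if h : x ≠ 0 then Projectivization.mk ℂ x h else Projectivization.mk ℂ x₁ hx₁

theorem ptN_eq {N : ℕ} (x₁ : Fin (N + 1) → ℂ) (hx₁ : x₁ ≠ 0) {x y : Fin (N + 1) → ℂ} (hy : y ≠ 0)
    (h : Pr x y) : ptN x₁ hx₁ x = Projectivization.mk ℂ y hy := by
  obtain ⟨c, hc, rfl⟩ := h
  have h1 : c • y ≠ 0 := smul_ne_zero hc hy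
  unfold ptN
  rw [dif_pos h1, Projectivization.mk_eq_mk_iff']
  exact ⟨c, rfl⟩

/-- the set of points of `ℙ^N` of a cone -/
def ptsOf {N : ℕ} (X' : Set (EN N)) : Set (PN N) := {p | (WithLp.toLp 2 p.rep : EN N) ∈ X'}

theorem coneOf_ptsOf {N : ℕ} {X' : Set (EN N)} (h0 : (0 : EN N) ∉ X')
    (hs : ∀ x ∈ X', ∀ c : ℂ, c ≠ 0 → c • x ∈ X') : coneOf (ptsOf X') = X' := by
  ext x
  constructor
  · rintro ⟨h, h1⟩
    obtain ⟨a, ha, h2⟩ := rep_mk (V := Fin (N + 1) → ℂ) h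
    have h3 : (WithLp.toLp 2 (Projectivization.mk ℂ x.ofLp h).rep : EN N) ∈ X' := h1
    rw [h2, WithLp.toLp_smul, WithLp.toLp_ofLp] at h3
    have h4 := hs _ h3 a⁻¹ (inv_ne_zero ha)
    rwa [smul_smul, inv_mul_cancel₀ ha, one_smul] at h4
  · intro hx
    have hx0 : x ≠ 0 := fun e => h0 (e ▸ hx)
    refine ⟨ofLp_ne_zero hx0, ?_⟩
    show (WithLp.toLp 2 (Projectivization.mk ℂ x.ofLp (ofLp_ne_zero hx0)).rep : EN N) ∈ X'
    obtain ⟨a, ha, h2⟩ := rep_mk (V := Fin (N + 1) → ℂ) (ofLp_ne_zero hx0)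
    rw [h2, WithLp.toLp_smul, WithLp.toLp_ofLp]
    exact hs _ hx a ha

/-- **Kobayashi hyperbolicity modulo the curve in the nodal case.** -/
theorem nodal_kob {V : Type} [NormedAddCommGroup V] [NormedSpace ℂ V] [FiniteDimensional ℂ V]
    {X B : Set V} {m j : ℕ} {Ω : V → V → V → ℂ} {κ : Type} [Fintype κ] {Q : κ → V → ℂ} {D : ℕ}
    (h : Model X B m j Ω Q D) (hn : ∀ x ∈ X, NodalAt X B x) : Kob X Q D := by
  classical
  -- the trivial case
  by_cases hXe : ∃ x₀, x₀ ∈ X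
  swap
  · refine ⟨1, 0, le_rfl, le_rfl, fun f F hf _ _ _ => ?_⟩
    exact absurd ⟨f 0, (hf 0 (by simp)).2⟩ hXe
  obtain ⟨x₀, hx₀⟩ := hXe
  have hXs := h.surf.smul
  have hne : ∀ x ∈ X, x ≠ 0 := fun x hx e => h.surf.zero (e ▸ hx)
  have hBs := h.eqs.cone h.surf.smul
  have hpos : 0 < Module.finrank ℂ V :=
    Module.finrank_pos_iff_exists_ne_zero.mpr ⟨x₀, hne x₀ hx₀⟩
  obtain ⟨N, hN⟩ : ∃ N, Module.finrank ℂ V = N + 1 := ⟨Module.finrank ℂ V - 1, by omega⟩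
  let L : V ≃L[ℂ] EN N := ContinuousLinearEquiv.ofFinrankEq (by rw [hN]; simp)
  obtain ⟨heq, M, c₀, C, G, hM⟩ := nodal_metric L (Q := Nodal_Q Q) (D := D) h.surf (fun x => by
    have h1 : AnalyticAt ℂ (fun x : V => fun i => Q i x) x := by
      rw [analyticAt_pi_iff]
      exact fun i => h.eqs.an i x
    exact AnalyticAt.comp (g := (WithLp.toLp 2 : (κ → ℂ) → EuclideanSpace ℂ κ))
      (f := fun x : V => fun i => Q i x) ((EuclideanSpace.equiv κ ℂ).symm.analyticAt _) h1)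
    (fun c x => by
      unfold Nodal_Q
      rw [← WithLp.toLp_smul]
      congr 1
      funext i
      simp [h.eqs.smul]) (B := B) (fun x => by
      rw [h.eqs.mem_iff]
      unfold Nodal_Q
      constructor
      · rintro ⟨h1, h2⟩
        refine ⟨h1, ?_⟩
        have h3 : (fun i => Q i x) = (0 : κ → ℂ) := funext h2
        rw [h3]
        rfl
      · rintro ⟨h1, h2⟩
        refine ⟨h1, fun i => ?_⟩
        have h3 := congrFun (congrArg WithLp.ofLp h2) i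
        exact h3) hn h.one_m h.one_j h.form h.noZeros
  have hcone : Pool.Agent.H14.PP.IsCone (L.symm ⁻¹' X : Set (EN N)) := isCone_transport L h.surf
  have hT's : ∀ x ∈ (L.symm ⁻¹' B : Set (EN N)), ∀ c : ℂ, c ≠ 0 → c • x ∈ (L.symm ⁻¹' B : Set (EN N)) := by
    intro x hx c hc
    show L.symm (c • x) ∈ B
    rw [map_smul]
    exact hBs _ hx c hc
  have e1 : coneOf (ptsOf (L.symm ⁻¹' X : Set (EN N))) = L.symm ⁻¹' X :=
    coneOf_ptsOf hcone.zero_notMem hcone.smul_mem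
  have e2 : coneOf (ptsOf ((L.symm ⁻¹' X : Set (EN N)) ∩ L.symm ⁻¹' B)) =
      (L.symm ⁻¹' X : Set (EN N)) ∩ L.symm ⁻¹' B :=
    coneOf_ptsOf (fun h0 => hcone.zero_notMem h0.1)
      (fun x hx c hc => ⟨hcone.smul_mem x hx.1 c hc, hT's x hx.2 c hc⟩)
  obtain ⟨K₁, hK₁, hK₁b⟩ := Pool.Agent.H14.PP.exists_rho_bound hcone heq
  have hM2 : MetricData (coneOf (ptsOf (L.symm ⁻¹' X : Set (EN N))))
      (coneOf (ptsOf ((L.symm ⁻¹' X : Set (EN N)) ∩ L.symm ⁻¹' B))) G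
      (Pool.Agent.H14.PP.rho (fun y => Nodal_Q Q (L.symm y)) D) M c₀ C := by
    rw [e1, e2]
    exact hM
  obtain ⟨L₁, hL₁, hkob⟩ := kobayashi hM2 (by
    intro f hf hfX hne' z
    have hX' : ∀ z, L.symm (WithLp.toLp 2 (f z).rep) ∈ X := hfX
    have hhol : ∀ z, HolP (fun z => L.symm (WithLp.toLp 2 (f z).rep)) z := by
      intro z
      obtain ⟨φ, hφ, he⟩ := hf z (Set.mem_univ z)
      have h1 : AnalyticAt ℂ (fun z => L.symm (WithLp.toLp 2 (φ z))) z :=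
        ((L.symm : EN N →L[ℂ] V).analyticAt _).comp (analyticAt_toLp hφ)
      refine ⟨_, h1, ?_, ?_⟩
      · obtain ⟨h2, h3⟩ := he.self_of_nhds
        intro h4
        exact h2 (congrArg WithLp.ofLp (L.symm.map_eq_zero_iff.mp h4))
      · filter_upwards [he] with w hw
        obtain ⟨h2, h3⟩ := hw
        obtain ⟨a, ha, h4⟩ := rep_mk (V := Fin (N + 1) → ℂ) h2
        refine ⟨a, ha, ?_⟩
        show L.symm (WithLp.toLp 2 (f w).rep) = a • L.symm (WithLp.toLp 2 (φ w))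
        rw [h3, h4, WithLp.toLp_smul, map_smul]
    refine ⟨hX' z, ?_⟩
    by_contra hzB
    have hall := h.brody (fun z => L.symm (WithLp.toLp 2 (f z).rep)) hhol hX' ⟨z, hzB⟩
    obtain ⟨u, w, huw⟩ := hne'
    apply huw
    obtain ⟨c, hc, h2⟩ := hall u w
    rw [← (f u).mk_rep, ← (f w).mk_rep, Projectivization.mk_eq_mk_iff']
    refine ⟨c, ?_⟩
    have h3 : (WithLp.toLp 2 (f u).rep : EN N) = c • WithLp.toLp 2 (f w).rep := by
      apply L.symm.injective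
      rw [map_smul]
      exact h2
    exact (congrArg WithLp.ofLp h3).symm)
  set A : ℝ := ‖(L : V →L[ℂ] EN N)‖ with hA
  set A' : ℝ := ‖(L.symm : EN N →L[ℂ] V)‖ with hA'
  have hA0 : 0 ≤ A := norm_nonneg _
  have hA'0 : 0 ≤ A' := norm_nonneg _
  -- comparison of the sizes
  have hρ : ∀ x ∈ X, rhoS Q D x ≤ A ^ D *
      Pool.Agent.H14.PP.rho (fun y => Nodal_Q Q (L.symm y)) D (L x) := by
    intro x hx
    have hx0 : 0 < ‖x‖ := norm_pos_iff.mpr (hne x hx)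
    have hLx0 : 0 < ‖L x‖ := norm_pos_iff.mpr fun h0 => hne x hx (L.map_eq_zero_iff.mp h0)
    unfold rhoS Pool.Agent.H14.PP.rho
    simp only
    rw [L.symm_apply_apply, ← mul_div_assoc, div_le_div_iff₀ (by positivity) (by positivity)]
    have h1 : ‖fun i => Q i x‖ ≤ ‖Nodal_Q Q x‖ := by
      refine (pi_norm_le_iff_of_nonneg (norm_nonneg _)).mpr fun i => ?_
      exact PiLp.norm_apply_le (Nodal_Q Q x) i
    have h2 : ‖L x‖ ≤ A * ‖x‖ := (L : V →L[ℂ] EN N).le_opNorm x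
    calc ‖fun i => Q i x‖ * ‖L x‖ ^ D ≤ ‖Nodal_Q Q x‖ * (A * ‖x‖) ^ D := by gcongr
      _ = A ^ D * ‖Nodal_Q Q x‖ * ‖x‖ ^ D := by rw [mul_pow]; ring
  have hρ2 : ∀ x ∈ X, rhoS Q D x ≤ A ^ D * K₁ := by
    intro x hx
    refine (hρ x hx).trans (mul_le_mul_of_nonneg_left (hK₁b _ ?_) (by positivity))
    show L.symm (L x) ∈ X
    rwa [L.symm_apply_apply]
  refine ⟨M + 1, A ^ D * K₁ * ((A ^ D) ^ M * (A' * (L₁ * A))), by omega, by positivity,
    fun f F hf hF hF0 hfF => ?_⟩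
  have hf0 := (hf 0 (by simp)).2
  have hFX : F 0 ∈ X := (Pr.mem_iff hXs hfF.self_of_nhds).1 hf0
  have hx1 : (L x₀).ofLp ≠ 0 := ofLp_ne_zero fun h0 => hne x₀ hx₀ (L.map_eq_zero_iff.mp h0)
  set p : ℂ → PN N := fun z => ptN (L x₀).ofLp hx1 (L (f z)).ofLp with hp
  have hLne : ∀ y : V, y ≠ 0 → (L y).ofLp ≠ 0 := fun y hy =>
    ofLp_ne_zero fun h0 => hy (L.map_eq_zero_iff.mp h0)
  have hLpr : ∀ {y y' : V}, Pr y y' → Pr (L y).ofLp (L y').ofLp := by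
    rintro y y' ⟨c, hc, rfl⟩
    exact ⟨c, hc, by rw [map_smul]; rfl⟩
  have hpoint : ∀ {z : ℂ} {y : V} (hy : y ≠ 0), Pr (f z) y →
      p z = Projectivization.mk ℂ (L y).ofLp (hLne y hy) := fun hy h1 =>
    ptN_eq _ _ _ (hLpr h1)
  have h1 := hkob p (fun z => L (F z)) (by
    intro z₀ hz₀
    rw [mem_ball_zero_iff] at hz₀
    obtain ⟨Φ, hΦ, hΦ0, he⟩ := (hf z₀ hz₀).1
    refine ⟨fun z => (L (Φ z)).ofLp, analyticAt_ofLp (((L : V →L[ℂ] EN N).analyticAt _).comp hΦ), ?_⟩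
    filter_upwards [he, hΦ.continuousAt.eventually_ne hΦ0] with z h2 h3
    exact ⟨hLne _ h3, hpoint h3 h2⟩) (by
    intro z hz
    rw [mem_ball_zero_iff] at hz
    have h2 := (hf z hz).2
    show L.symm (WithLp.toLp 2 (p z).rep) ∈ X
    rw [hpoint (hne _ h2) ⟨1, one_ne_zero, (one_smul _ _).symm⟩]
    obtain ⟨a, ha, h4⟩ := rep_mk (V := Fin (N + 1) → ℂ) (hLne _ (hne _ h2))
    rw [h4, WithLp.toLp_smul, WithLp.toLp_ofLp, map_smul, L.symm_apply_apply]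
    exact hXs _ h2 a ha) (((L : V →L[ℂ] EN N).analyticAt _).comp hF) (by
    filter_upwards [hfF, hF.continuousAt.eventually_ne hF0] with z h2 h3
    exact ⟨hLne _ h3, hpoint h3 h2⟩)
  have hd : deriv (fun z => L (F z)) 0 = L (deriv F 0) := by
    have h2 : HasDerivAt (fun z => L (F z)) (L (deriv F 0)) 0 :=
      (L : V →L[ℂ] EN N).hasFDerivAt.comp_hasDerivAt 0 hF.differentiableAt.hasDerivAt
    exact h2.deriv
  rw [hd] at h1
  have hLF0 : L (F 0) ≠ 0 := fun h0 => hF0 (L.map_eq_zero_iff.mp h0)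
  rw [Pool.Agent.H14.PP.fs_eq hLF0] at h1
  set a : ℂ := inner ℂ (L (F 0)) (L (deriv F 0)) / (‖L (F 0)‖ : ℂ) ^ 2 with ha
  refine ⟨a, ?_⟩
  have hLFn : 0 < ‖L (F 0)‖ := norm_pos_iff.mpr hLF0
  have h2 : L (deriv F 0) - a • L (F 0) = L (deriv F 0 - a • F 0) := by
    rw [map_sub, map_smul]
  rw [h2, ← mul_div_assoc, div_le_iff₀ hLFn] at h1
  have h3 : ‖deriv F 0 - a • F 0‖ ≤ A' * ‖L (deriv F 0 - a • F 0)‖ := by
    have := (L.symm : EN N →L[ℂ] V).le_opNorm (L (deriv F 0 - a • F 0))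
    have e : (L.symm : EN N →L[ℂ] V) (L (deriv F 0 - a • F 0)) = deriv F 0 - a • F 0 :=
      L.symm_apply_apply _
    rwa [e] at this
  have h4 : ‖L (F 0)‖ ≤ A * ‖F 0‖ := (L : V →L[ℂ] EN N).le_opNorm _
  set ρ₀ := Pool.Agent.H14.PP.rho (fun y => Nodal_Q Q (L.symm y)) D (L (F 0)) with hρ₀
  have hρ₀0 : 0 ≤ ρ₀ := Pool.Agent.H14.PP.rho_nonneg _ _ _
  have h5 := hρ _ hFX
  have h6 := hρ2 _ hFX
  have h7 := rhoS_nonneg Q D (F 0)
  calc rhoS Q D (F 0) ^ (M + 1) * ‖deriv F 0 - a • F 0‖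
      = rhoS Q D (F 0) * (rhoS Q D (F 0) ^ M * ‖deriv F 0 - a • F 0‖) := by rw [pow_succ]; ring
    _ ≤ A ^ D * K₁ * ((A ^ D * ρ₀) ^ M * (A' * ‖L (deriv F 0 - a • F 0)‖)) := by gcongr
    _ = A ^ D * K₁ * ((A ^ D) ^ M * (A' * (ρ₀ ^ M * ‖L (deriv F 0 - a • F 0)‖))) := by
        rw [mul_pow]; ring
    _ ≤ A ^ D * K₁ * ((A ^ D) ^ M * (A' * (L₁ * ‖L (F 0)‖))) := by gcongr
    _ ≤ A ^ D * K₁ * ((A ^ D) ^ M * (A' * (L₁ * (A * ‖F 0‖)))) := by gcongr
    _ = A ^ D * K₁ * ((A ^ D) ^ M * (A' * (L₁ * A))) * ‖F 0‖ := by ring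

end Pool.Agent.H14.KB
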