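import Pool.Agent.H36.BP.Main

/-!
# From the Brody bound to Kobayashi hyperbolicity
-/

open Filter Topology Metric

noncomputable section

namespace Pool.Agent.H14.KB

open Pool.Agent.H17 (PN HolomorphicInto puncturedDisc)
open Pool.Agent.H36.BP

variable {N : ℕ} {G : EN N → EN N → ℝ} {ρ : EN N → ℝ} {M : ℕ} {c₀ C : ℝ}

/-- Kobayashi hyperbolicity modulo the exceptional set: all lifts of all discs -/
theorem kobayashi_of_bound {X Z : Set (PN N)} (hM : MetricData (coneOf X) (coneOf Z) G ρ M c₀ C)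
    (hB : ∃ L : ℝ, 0 < L ∧ ∀ F, Curve (coneOf X) (ball 0 1) F → mt G F 0 ≤ L) :
    ∃ L : ℝ, 0 < L ∧ ∀ (f : ℂ → PN N) (F : ℂ → EN N), HolomorphicInto f (ball 0 1) → (∀ z ∈ ball (0 : ℂ) 1, f z ∈ X) →
      AnalyticAt ℂ F 0 → (∀ᶠ z in 𝓝 (0 : ℂ), ∃ h : (F z).ofLp ≠ 0, f z = Projectivization.mk ℂ _ h) →
      ρ (F 0) ^ M * fs (F 0) (deriv F 0) ≤ L := by
  obtain ⟨L, hL, hLb⟩ := hB
  refine ⟨2 * L, by positivity, fun f F hf hfX hF hFf => ?_⟩
  obtain ⟨F₁, hF1d, hF1f⟩ := lift_disc hf (r := 1 / 2) (by norm_num) (by norm_num)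
  have h0mem : (0 : ℂ) ∈ ball (0 : ℂ) (1 / 2) := mem_ball_self (by norm_num)
  have hF10 : F₁ 0 ≠ 0 := ne_zero_of_ofLp (hF1f 0 h0mem).choose
  have hF1a : AnalyticAt ℂ F₁ 0 := hF1d.analyticAt (isOpen_ball.mem_nhds h0mem)
  have hF1K : ∀ z ∈ ball (0 : ℂ) (1 / 2), F₁ z ∈ coneOf X := by
    intro z hz
    obtain ⟨h1, h2⟩ := hF1f z hz
    exact ⟨h1, by rw [← h2]; exact hfX z (ball_subset_ball (by norm_num) hz)⟩
  -- the scaled curve
  have hcur : Curve (coneOf X) (ball 0 1) (fun z => F₁ (z / 2)) := by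
    have hh : ∀ z ∈ ball (0 : ℂ) 1, z / 2 ∈ ball (0 : ℂ) (1 / 2) := by
      intro z hz
      rw [mem_ball_zero_iff] at hz ⊢
      rw [norm_div]
      simp only [Complex.norm_ofNat]
      linarith
    refine ⟨fun z hz => ?_, fun z hz => hF1K _ (hh z hz)⟩
    have h1 : DifferentiableAt ℂ F₁ (z / 2) := hF1d.differentiableAt (isOpen_ball.mem_nhds (hh z hz))
    exact (h1.comp z (differentiableAt_id.div_const 2)).differentiableWithinAt
  have hb := hLb _ hcur
  have hdz : HasDerivAt (fun z : ℂ => z / 2) (1 / 2) 0 := by simpa using (hasDerivAt_id (0 : ℂ)).div_const 2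
  have e1 : mt G (fun z => F₁ (z / 2)) 0 = ‖deriv (fun z : ℂ => z / 2) 0‖ * mt G F₁ ((fun z : ℂ => z / 2) 0) := by
    refine mt_comp hM (φ := fun z : ℂ => z / 2) ?_ hdz.differentiableAt ?_
    · simpa using hF1a.differentiableAt
    · simpa using hF1K 0 h0mem
  rw [hdz.deriv] at e1
  simp only [zero_div] at e1
  have hn : ‖(1 / 2 : ℂ)‖ = 1 / 2 := by norm_num
  rw [hn] at e1
  rw [e1] at hb
  -- comparison of the lifts
  obtain ⟨j, hj⟩ : ∃ j, (F₁ 0) j ≠ 0 := by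
    by_contra hcon
    push Not at hcon
    exact hF10 (by ext i; exact hcon i)
  have hc1 : AnalyticAt ℂ (fun w => F₁ w j) 0 := analyticAt_pi_iff.mp (analyticAt_ofLp hF1a) j
  have hc2 : AnalyticAt ℂ (fun w => F w j) 0 := analyticAt_pi_iff.mp (analyticAt_ofLp hF) j
  set k : ℂ → ℂ := fun w => F w j / F₁ w j with hk
  have hka : AnalyticAt ℂ k 0 := hc2.div hc1 hj
  have hrel : ∀ᶠ w in 𝓝 (0 : ℂ), F w = k w • F₁ w ∧ k w ≠ 0 := by
    filter_upwards [hFf, isOpen_ball.mem_nhds h0mem, hc1.continuousAt.eventually_ne hj] with w h1 h2 h3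
    obtain ⟨h4, h5⟩ := h1
    obtain ⟨h6, h7⟩ := hF1f w h2
    rw [h5, Projectivization.mk_eq_mk_iff'] at h7
    obtain ⟨a, ha⟩ := h7
    have ha' : ∀ i, a * F₁ w i = F w i := fun i => congrFun ha i
    have hka' : k w = a := by
      rw [hk]
      simp only
      rw [← ha' j]
      field_simp
    refine ⟨?_, ?_⟩
    · rw [hka']
      ext i
      exact (ha' i).symm
    · rw [hka']
      rintro rfl
      apply h4
      funext i
      rw [← ha' i, zero_mul]
      rfl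
  have hF0 : F 0 ∈ coneOf X := by
    obtain ⟨h1, h2⟩ := hFf.self_of_nhds
    exact ⟨h1, by rw [← h2]; exact hfX 0 (mem_ball_self one_pos)⟩
  have e2 : mt G F 0 = Pool.Agent.H36.BP.mt G (fun w => k w • F₁ w) 0 := by
    have h1 : F =ᶠ[𝓝 0] fun w => k w • F₁ w := by
      filter_upwards [hrel] with w hw
      exact hw.1
    unfold Pool.Agent.H36.BP.mt
    rw [h1.deriv_eq, h1.self_of_nhds]
  rw [mt_smul hM hF1a.differentiableAt hka.differentiableAt (hF1K 0 h0mem) hrel.self_of_nhds.2] at e2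
  have hlow := hM.lower (F 0) hF0 (deriv F 0)
  have : mt G F 0 ≤ 2 * L := by rw [e2]; linarith
  exact hlow.trans this

end Pool.Agent.H14.KB
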