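import Pool.Agent.H14.KB.Kob
import Pool.Agent.H36.BPL.BlowK

/-!
# Kobayashi hyperbolicity modulo a curve and blow-ups: open surfaces
-/

open Topology Filter

noncomputable section

namespace Pool.Agent.H14.KB

open Pool.Agent Pool.Agent.H17BP
open Pool.Agent.H62.BU (blow total Ker phi)

variable {V : Type} [NormedAddCommGroup V] [NormedSpace ℂ V]
variable {ι : Type} [Fintype ι] {l : ι → V →L[ℂ] ℂ} {X K B : Set V} {q : V} {κ : Type} [Fintype κ]
  {Q : κ → V → ℂ} {D : ℕ}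

theorem kobK_blow (hX : Surface X) (hl : Ker l q) (he : Eqs X B Q D) (hKX : K ⊆ X)
    (hKs : ∀ x ∈ K, ∀ c : ℂ, c ≠ 0 → c • x ∈ K) (hq : q ∈ B)
    (hk : Kob (total l X K) (fun (p : κ × ι) (y : ι → V) => Q p.1 (y p.2)) D) : Kob K Q D := by
  obtain ⟨M, C, hM, hC, hk⟩ := hk
  have hBX := he.sub
  have hB := he.cone hX.smul
  have hq0 : q ≠ 0 := fun h => hX.zero (h ▸ hBX hq)
  refine ⟨M, 4 * C, hM, by positivity, fun f F hf hF hF0 hfF => ?_⟩
  have hF0' : 0 < ‖F 0‖ := norm_pos_iff.mpr hF0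
  have hf0 := hKX (hf 0 (by simp)).2
  have hFX : F 0 ∈ X := (Pr.mem_iff hX.smul hfF.self_of_nhds).1 hf0
  by_cases hFB : F 0 ∈ B
  · refine ⟨0, ?_⟩
    have h1 : rhoS Q D (F 0) = 0 := by
      unfold rhoS
      have h2 : (fun i => Q i (F 0)) = 0 := funext fun i => ((he.mem_iff _).1 hFB).2 i
      rw [h2, norm_zero, zero_div]
    rw [h1, zero_pow (by omega), zero_mul]
    positivity
  have hfB : f 0 ∉ B := fun h => hFB ((Pr.mem_iff hB hfF.self_of_nhds).1 h)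
  -- the shifted curve
  have hnorm : ∀ z : ℂ, ‖z‖ < 1 / 2 → ‖z + 1 / 4‖ < 1 := by
    intro z hz
    have h1 : ‖(1 / 4 : ℂ)‖ = 1 / 4 := by norm_num
    have h2 := norm_add_le z (1 / 4 : ℂ)
    rw [h1] at h2
    linarith
  have hsh : ∀ z : ℂ, z ≠ 0 → ‖z‖ < 1 / 2 → HolP (fun z => f (z + 1 / 4)) z ∧ f (z + 1 / 4) ∈ X := by
    intro z _ hz
    obtain ⟨h1, h2⟩ := hf _ (hnorm z hz)
    refine ⟨?_, hKX h2⟩
    have h3 : HolP (fun z => f (1 * z + 1 / 4)) z := HolP.comp_affine (by rw [one_mul]; exact h1)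
    simpa using h3
  have hne : ∃ z : ℂ, z ≠ 0 ∧ ‖z‖ < 1 / 2 ∧ f (z + 1 / 4) ∉ B := by
    refine ⟨-(1 / 4), by norm_num, by norm_num, ?_⟩
    rw [neg_add_cancel]
    exact hfB
  have hi := isolated_of_notMem hl hB hq hq0 (fun z h1 h2 => (hsh z h1 h2).1) hne
  obtain ⟨h, h1, h2⟩ := exists_lift hX hl hq0 hsh hi
  -- the lifted curve
  have hz1 : ∀ z : ℂ, ‖z‖ < 1 → 1 / 4 * z + -(1 / 4) ≠ 0 ∧ ‖1 / 4 * z + -(1 / 4)‖ < 1 / 2 := by
    intro z hz
    constructor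
    · intro h0
      have h3 : z = 1 := by linear_combination 4 * h0
      rw [h3, norm_one] at hz
      exact lt_irrefl _ hz
    · have h3 := norm_add_le (1 / 4 * z) (-(1 / 4) : ℂ)
      rw [norm_mul, norm_neg] at h3
      have h4 : ‖(1 / 4 : ℂ)‖ = 1 / 4 := by norm_num
      rw [h4] at h3
      linarith
  set g : ℂ → ι → V := fun z => h (1 / 4 * z + -(1 / 4)) with hg
  have hgh : ∀ z : ℂ, ‖z‖ < 1 → HolP g z ∧ g z ∈ total l X K := by
    intro z hz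
    obtain ⟨h3, h4⟩ := hz1 z hz
    obtain ⟨h5, h6⟩ := h1 _ h3 h4
    refine ⟨HolP.comp_affine h5, h6, fun b hb => ?_⟩
    obtain ⟨c, hc, e⟩ := (h2 _ h3 h4 b hb).symm
    show h (1 / 4 * z + -(1 / 4)) b ∈ K
    rw [e]
    exact hKs _ (hf _ (hnorm _ h4)).2 c hc
  -- some `l b (F 0)` is not `0`
  have hlb : ∃ b, l b (F 0) ≠ 0 := by
    by_contra hcon
    push Not at hcon
    obtain ⟨c, e⟩ := (hl (F 0)).1 hcon
    have hc : c ≠ 0 := by
      rintro rfl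
      rw [zero_smul] at e
      exact hF0 e
    exact hFB (e ▸ hB q hq c hc)
  have : Nonempty ι := ⟨hlb.choose⟩
  obtain ⟨b, hbmax⟩ := Finite.exists_max fun b => ‖l b (F 0)‖
  have hb : l b (F 0) ≠ 0 := by
    obtain ⟨b', hb'⟩ := hlb
    have h3 := hbmax b'
    intro h0
    rw [h0, norm_zero] at h3
    exact hb' (norm_le_zero_iff.mp h3)
  have hb0 : 0 < ‖l b (F 0)‖ := norm_pos_iff.mpr hb
  set G : ℂ → ι → V := fun z => phi l (F (1 / 4 * z)) with hG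
  have hsc : HasDerivAt (fun z : ℂ => 1 / 4 * z) (1 / 4) 0 := by
    simpa using (hasDerivAt_id (0 : ℂ)).const_mul (1 / 4 : ℂ)
  have hsc0 : (fun z : ℂ => 1 / 4 * z) 0 = 0 := by simp
  have hscan : AnalyticAt ℂ (fun z : ℂ => 1 / 4 * z) 0 := analyticAt_const.mul analyticAt_id
  have hF1 : AnalyticAt ℂ (fun z : ℂ => F (1 / 4 * z)) 0 :=
    AnalyticAt.comp (g := F) (f := fun z : ℂ => 1 / 4 * z) (by simpa using hF) hscan
  have hGan : AnalyticAt ℂ G 0 := by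
    rw [analyticAt_pi_iff]
    intro b
    exact (((l b).analyticAt _).comp hF1).smul hF1
  have hG0 : G 0 = phi l (F 0) := by
    rw [hG]
    simp
  have hGne : G 0 ≠ 0 := by
    rw [hG0]
    exact H62.BU.phi_ne ⟨b, hb⟩
  have ht : Tendsto (fun z : ℂ => 1 / 4 * z) (𝓝 0) (𝓝 0) := by
    have := hscan.continuousAt.tendsto
    simpa using this
  have hgG : ∀ᶠ z in 𝓝 (0 : ℂ), Pr (g z) (G z) := by
    have h3 : ∀ᶠ z in 𝓝 (0 : ℂ), l b (F (1 / 4 * z)) ≠ 0 := by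
      have h4 : ContinuousAt (fun z : ℂ => l b (F (1 / 4 * z))) 0 :=
        (l b).continuous.continuousAt.comp hF1.continuousAt
      exact h4.eventually_ne (by simpa using hb)
    have h4 : ∀ᶠ z : ℂ in 𝓝 0, ‖z‖ < 1 :=
      continuous_norm.continuousAt.eventually_lt_const (by simp)
    filter_upwards [ht.eventually hfF, h3, h4] with z h5 h6 h7
    obtain ⟨h8, h9⟩ := hz1 z h7
    obtain ⟨h10, h11⟩ := h1 _ h8 h9
    obtain ⟨b₁, hb₁⟩ := H62.BU.exists_ne _ h11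
    have h12 : Pr (f (1 / 4 * z)) (g z b₁) := by
      have := h2 _ h8 h9 b₁ hb₁
      have e : 1 / 4 * z + -(1 / 4) + 1 / 4 = 1 / 4 * z := by ring
      rwa [e] at this
    have h13 : Pr (F (1 / 4 * z)) (g z b₁) := h5.symm.trans h12
    have h14 : l b (g z b₁) ≠ 0 := by
      obtain ⟨c, hc, e⟩ := h13
      intro h0
      rw [e, map_smul, h0, smul_zero] at h6
      exact h6 rfl
    have h15 := H62.BU.eq_phi (g z) h11 hb₁ h14
    have h16 := H62.BU.ne_of_ne (g z) h11 hb₁ h14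
    have h17 : Pr (g z) (phi l (g z b₁)) := ⟨_, inv_ne_zero h16, h15⟩
    obtain ⟨c, hc, e⟩ := h13.symm
    refine h17.trans ⟨c ^ 2, pow_ne_zero _ hc, ?_⟩
    rw [hG, e, H62.BU.phi_smul]
  obtain ⟨a', ha'⟩ := hk g G hgh hGan hGne hgG
  -- the derivative
  have hFd : HasDerivAt F (deriv F 0) 0 := hF.differentiableAt.hasDerivAt
  have hF1d : HasDerivAt (fun z : ℂ => F (1 / 4 * z)) ((1 / 4 : ℂ) • deriv F 0) 0 := by
    have h3 : HasDerivAt F (deriv F 0) ((fun z : ℂ => 1 / 4 * z) 0) := by rw [hsc0]; exact hFd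
    exact h3.scomp 0 hsc
  have hGd : deriv G 0 b = (1 / 4 : ℂ) • (l b (deriv F 0) • F 0 + l b (F 0) • deriv F 0) := by
    have h3 : HasDerivAt (fun z : ℂ => l b (F (1 / 4 * z))) (l b ((1 / 4 : ℂ) • deriv F 0)) 0 :=
      (l b).hasFDerivAt.comp_hasDerivAt (0 : ℂ) hF1d
    rw [map_smul, smul_eq_mul] at h3
    have h4 := h3.smul hF1d
    have h5 : HasDerivAt (fun z => G z b) (deriv G 0 b) 0 :=
      (hasDerivAt_pi.1 hGan.differentiableAt.hasDerivAt) b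
    have h6 : (fun z => G z b) = fun z : ℂ => l b (F (1 / 4 * z)) • F (1 / 4 * z) := rfl
    rw [h6] at h5
    have h7 := h5.unique h4
    rw [h7]
    simp only [mul_zero]
    module
  refine ⟨4 * a' - l b (deriv F 0) / l b (F 0), ?_⟩
  set a : ℂ := 4 * a' - l b (deriv F 0) / l b (F 0) with ha
  have h3 : deriv G 0 b - a' • G 0 b = (l b (F 0) / 4) • (deriv F 0 - a • F 0) := by
    rw [hGd, hG0]
    show _ - a' • (l b (F 0) • F 0) = _
    rw [ha]
    have h4 : (l b (F 0) / 4) * (4 * a' - l b (deriv F 0) / l b (F 0)) =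
        l b (F 0) * a' - l b (deriv F 0) / 4 := by
      field_simp
    have h5 : (l b (F 0) / 4) • (deriv F 0 - (4 * a' - l b (deriv F 0) / l b (F 0)) • F 0) =
        (l b (F 0) / 4) • deriv F 0 - (l b (F 0) * a' - l b (deriv F 0) / 4) • F 0 := by
      rw [smul_sub, smul_smul, h4]
    rw [h5]
    module
  have h4 : ‖l b (F 0)‖ / 4 * ‖deriv F 0 - a • F 0‖ ≤ ‖deriv G 0 - a' • G 0‖ := by
    have h5 := norm_le_pi_norm (deriv G 0 - a' • G 0) b
    have h6 : (deriv G 0 - a' • G 0) b = deriv G 0 b - a' • G 0 b := rfl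
    rw [h6, h3, norm_smul, norm_div] at h5
    have h7 : ‖(4 : ℂ)‖ = 4 := by norm_num
    rwa [h7] at h5
  have h5 : ‖G 0‖ ≤ ‖l b (F 0)‖ * ‖F 0‖ := by
    rw [hG0]
    refine (pi_norm_le_iff_of_nonneg (by positivity)).mpr fun b' => ?_
    show ‖l b' (F 0) • F 0‖ ≤ _
    rw [norm_smul]
    exact mul_le_mul_of_nonneg_right (hbmax b') (norm_nonneg _)
  have h6 := rhoS_phi (l := l) he.smul hF0 hb hbmax
  rw [hG0] at ha'
  rw [hG0] at h4 h5
  have h7 : rhoS Q D (F 0) ^ M ≤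
      rhoS (fun (p : κ × ι) (y : ι → V) => Q p.1 (y p.2)) D (phi l (F 0)) ^ M :=
    pow_le_pow_left₀ (rhoS_nonneg _ _ _) h6 M
  have h8 : rhoS Q D (F 0) ^ M * (‖l b (F 0)‖ / 4 * ‖deriv F 0 - a • F 0‖) ≤
      C * (‖l b (F 0)‖ * ‖F 0‖) := by
    refine le_trans ?_ (ha'.trans (mul_le_mul_of_nonneg_left h5 hC))
    exact mul_le_mul h7 h4 (by positivity) (pow_nonneg (rhoS_nonneg _ _ _) _)
  have h9 : ‖l b (F 0)‖ * (rhoS Q D (F 0) ^ M * ‖deriv F 0 - a • F 0‖) ≤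
      ‖l b (F 0)‖ * (4 * C * ‖F 0‖) := by linarith
  exact le_of_mul_le_mul_left h9 hb0

end Pool.Agent.H14.KB
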