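import Pool.Agent.H14.KB.KobKInd
import Pool.Agent.H14.KB.KobFinal

/-!
# Open surfaces: from functions to maps into projective space
-/

open Topology Filter MvPolynomial Metric

noncomputable section

namespace Pool.Agent.H14.KB

open Pool.Agent Pool.Agent.H17BP
open Pool.Agent.H17 (PN VanishesAt ZariskiClosedIn HolomorphicInto puncturedDisc)
open Pool.Agent.H36.BPL (ModelK)

variable {N : ℕ}

/-- from functions to maps into projective space -/
theorem kobayashi_of_kobK {U : Set (PN N)} {K : Set (Fin (N + 1) → ℂ)} (hUK : ∀ x ∈ U, x.rep ∈ K)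
    {Q : MvPolynomial (Fin (N + 1)) ℂ} {D : ℕ}
    (h : Kob K (fun (_ : Unit) x => eval x Q) D) :
    KobayashiHyperbolicModulo U Q D := by
  obtain ⟨M, C, -, -, hk⟩ := h
  refine ⟨M, C, fun f F hf hfX hF hFf => ?_⟩
  obtain ⟨a, ha⟩ := hk (fun z => (f z).rep) F (fun z hz => by
    have hz' : z ∈ ball (0 : ℂ) 1 := by simpa using hz
    exact ⟨holP_rep hf hz', hUK _ (hfX z hz')⟩) hF hFf.self_of_nhds.1 (by
    filter_upwards [hFf] with z hz
    obtain ⟨h1, h2⟩ := hz
    obtain ⟨c, hc, h3⟩ := rep_mk_fin h1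
    exact ⟨c, hc, by rw [h2, h3]⟩)
  refine ⟨a, ?_⟩
  have h1 : rhoS (fun (_ : Unit) x => eval x Q) D (F 0) = ‖eval (F 0) Q‖ / ‖F 0‖ ^ D := by
    unfold rhoS
    congr 1
    refine le_antisymm ((pi_norm_le_iff_of_nonneg (norm_nonneg _)).mpr fun _ => le_rfl) ?_
    exact norm_le_pi_norm (fun _ : Unit => eval (F 0) Q) ()
  rw [h1] at ha
  exact ha

/-- **Kobayashi hyperbolicity of an open surface modulo a curve**, with respect to the metric of the projective space. -/
theorem kobayashi_of_modelK {U : Set (PN N)} {X K T : Set (Fin (N + 1) → ℂ)} (hUK : ∀ x ∈ U, x.rep ∈ K)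
    {Q : MvPolynomial (Fin (N + 1)) ℂ} {D m j : ℕ}
    {Ω : (Fin (N + 1) → ℂ) → (Fin (N + 1) → ℂ) → (Fin (N + 1) → ℂ) → ℂ}
    (h : ModelK X K T m j Ω (fun (_ : Unit) x => eval x Q) D) : KobayashiHyperbolicModulo U Q D :=
  kobayashi_of_kobK hUK (kob_of_modelK h)

end Pool.Agent.H14.KB
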