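import Pool.Agent.H14.KB.KobK
import Pool.Agent.H14.KB.KobNodal
import Pool.Agent.H14.KB.KobB
import Pool.Agent.H36.BPL.Wrap

/-!
# Kobayashi hyperbolicity modulo the curve: the nodal case for open surfaces
-/

open Topology Filter Metric

noncomputable section

namespace Pool.Agent.H14.KB

open Pool.Agent Pool.Agent.H17BP
open Pool.Agent.H17 (PN HolomorphicInto)
open Pool.Agent.H36.BP
open Pool.Agent.H36.BPL
open Pool.Agent.H14.PP (IsCone IsOpenPart IsNodal Chart HasType DType gD aCoef Form IsEq)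

/-- The metric theorem for open surfaces in `ℙ(V)`. -/
theorem nodalK_metric {V : Type} [NormedAddCommGroup V] [NormedSpace ℂ V] {N : ℕ} (L : V ≃L[ℂ] EN N)
    {W : Type} [NormedAddCommGroup W] [InnerProductSpace ℂ W] {X K T : Set V} {m j M : ℕ}
    {Ω : V → V → V → ℂ} {Q : V → W} {D : ℕ} {Φ : V → Fin M → ℂ} (hX : Surface X) (hK : OpenPart X K)
    (hΦ : AffProper X K Φ) (hKT : ∀ x ∈ X, x ∉ K → x ∈ T) (hQ : ∀ x, AnalyticAt ℂ Q x)
    (hQs : ∀ (c : ℂ) (x : V), Q (c • x) = c ^ D • Q x) (hT : ∀ x, x ∈ T ↔ x ∈ X ∧ Q x = 0)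
    (hn : ∀ x ∈ T, PairNodalAt X K T x) (hm : 1 ≤ m) (hj : 1 ≤ j) (hΩ : IsForm K m j Ω)
    (hz : NoZeros K T Ω) (hpl : PoleLE X K (m - 1) Ω) :
    IsEq (L.symm ⁻¹' X : Set (EN N)) (L.symm ⁻¹' T) (fun y => Q (L.symm y)) D ∧
    ∃ (M' : ℕ) (c₀ C : ℝ) (G : EN N → EN N → ℝ), MetricData (L.symm ⁻¹' K : Set (EN N))
      ((L.symm ⁻¹' K : Set (EN N)) ∩ L.symm ⁻¹' T) G
      (Pool.Agent.H14.PP.rho (fun y => Q (L.symm y)) D) M' c₀ C := by
  set X' : Set (EN N) := L.symm ⁻¹' X with hX'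
  set K' : Set (EN N) := L.symm ⁻¹' K with hK'
  set T' : Set (EN N) := L.symm ⁻¹' T with hT'
  have hTs : ∀ x ∈ T, ∀ c : ℂ, c ≠ 0 → c • x ∈ T := by
    intro x hx c hc
    obtain ⟨h1, h2⟩ := (hT x).mp hx
    exact (hT _).mpr ⟨hX.smul x h1 c hc, by rw [hQs, h2, smul_zero]⟩
  have hTX : T ⊆ X := fun x hx => ((hT x).mp hx).1
  have hcone : IsCone X' := isCone_transport L hX
  have hT's : ∀ x ∈ T', ∀ c : ℂ, c ≠ 0 → c • x ∈ T' := by
    intro x hx c hc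
    show L.symm (c • x) ∈ T
    rw [map_smul]
    exact hTs _ hx c hc
  have hK's : ∀ x ∈ K', ∀ c : ℂ, c ≠ 0 → c • x ∈ K' := by
    intro x hx c hc
    show L.symm (c • x) ∈ K
    rw [map_smul]
    exact hK.smul _ hx c hc
  have hopen : IsOpenPart X' K' := ⟨fun x hx => hK.sub hx, hK's, fun x hx => (L.symm.continuous.tendsto x).eventually (hK.rel _ hx)⟩
  have hnodal : IsNodal X' K' T' := by
    intro x hx
    have hxT : L.symm x ∈ T := hx
    obtain ⟨σ, τ, hc, h0, nd, d, hnd, hd, hdn⟩ := hn (L.symm x) hxT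
    have hg := germ_transport L hc
    have hLσ0 : L (σ 0) = x := by rw [h0, L.apply_symm_apply]
    have hnd' : ∀ᶠ p in 𝓝 (0 : ℂ × ℂ), (L (σ p) ∈ T' ↔ p.1 = 0 ∨ (nd = true ∧ p.2 = 0)) := by
      filter_upwards [hnd] with p hp
      rw [← hp]
      show L.symm (L (σ p)) ∈ T ↔ _
      rw [L.symm_apply_apply]
    have hd' : ∀ᶠ p in 𝓝 (0 : ℂ × ℂ), (L (σ p) ∉ K' ↔ (d.1 = true ∧ p.1 = 0) ∨ (d.2 = true ∧ p.2 = 0)) := by
      filter_upwards [hd] with p hp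
      rw [← hp]
      show L.symm (L (σ p)) ∉ K ↔ _
      rw [L.symm_apply_apply]
    obtain ⟨χ, h2, h3, h4, h5⟩ := exists_chart hcone hK's hT's hg hnd' hd'
    refine ⟨χ, nd, d, ?_, ?_, h4, h5, hdn⟩
    · rwa [hLσ0] at h2
    · rwa [hLσ0] at h3
  have heq : IsEq X' T' (fun y => Q (L.symm y)) D := by
    refine ⟨fun x => (hQ _).comp ((L.symm : EN N →L[ℂ] V).analyticAt x), fun c x => ?_, fun x => ?_⟩
    · show Q (L.symm (c • x)) = _
      rw [map_smul, hQs]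
    · exact hT (L.symm x)
  have hnz : (formT L hΩ).NoZeroOff T' := by
    intro x hx hxT v w hv hw hli
    refine hz (L.symm x) hx hxT _ (tan_transport L hv) _ (tan_transport L hw) ?_
    have h1 := hli.map' ((L.symm : EN N →L[ℂ] V) : EN N →ₗ[ℂ] V) (LinearMap.ker_eq_bot.mpr L.symm.injective)
    have h2 : (((L.symm : EN N →L[ℂ] V) : EN N →ₗ[ℂ] V) ∘ ![x, v, w]) = ![L.symm x, L.symm v, L.symm w] := by
      funext i
      fin_cases i <;> rfl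
    rw [h2] at h1
    exact h1
  have hpole : (formT L hΩ).PoleBound X' := poleBound_transport L hΩ hpl
  have hclX : ∀ x ∈ closure X', x ≠ 0 → x ∈ X' := fun x hx hx0 =>
    (hcone.closed.closure_subset_iff.mpr (Set.subset_insert 0 X') hx).resolve_left hx0
  exact ⟨heq, Pool.Agent.H14.PP.exists_metric hcone hopen (fun x hx hxn => hKT _ hx hxn) heq hnodal hm hj (formT L hΩ) hnz hpole
    (hur_of_affProper (fun x hx hx0 => hclX x (closure_mono hopen.subset hx) hx0) hK's (affProper_transport L hΦ))⟩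

/-- **Kobayashi hyperbolicity modulo the curve in the nodal case for open surfaces.** -/
theorem nodalK_kob {V : Type} [NormedAddCommGroup V] [NormedSpace ℂ V] [FiniteDimensional ℂ V]
    {X K B : Set V} {m j : ℕ} {Ω : V → V → V → ℂ} {κ : Type} [Fintype κ] {Q : κ → V → ℂ} {D : ℕ}
    (h : ModelK X K B m j Ω Q D) (hn : ∀ x ∈ X, NodalAt X B x) : Kob K Q D := by
  classical
  have hKX := h.opn.sub
  have hKs := h.opn.smul
  -- the trivial case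
  by_cases hXe : ∃ x₀, x₀ ∈ X
  swap
  · refine ⟨1, 0, le_rfl, le_rfl, fun f F hf _ _ _ => ?_⟩
    exact absurd ⟨f 0, hKX (hf 0 (by simp)).2⟩ hXe
  obtain ⟨x₀, hx₀⟩ := hXe
  have hXs := h.surf.smul
  have hne : ∀ x ∈ X, x ≠ 0 := fun x hx e => h.surf.zero (e ▸ hx)
  have hBs := h.eqs.cone h.surf.smul
  have hpos : 0 < Module.finrank ℂ V :=
    Module.finrank_pos_iff_exists_ne_zero.mpr ⟨x₀, hne x₀ hx₀⟩
  obtain ⟨N, hN⟩ : ∃ N, Module.finrank ℂ V = N + 1 := ⟨Module.finrank ℂ V - 1, by omega⟩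
  let L : V ≃L[ℂ] EN N := ContinuousLinearEquiv.ofFinrankEq (by rw [hN]; simp)
  obtain ⟨MΦ, Φ, hΦ⟩ := h.aff
  obtain ⟨heq, M, c₀, C, G, hM⟩ := nodalK_metric L (Q := Nodal_Q Q) (D := D) h.surf h.opn hΦ h.sub (fun x => by
    have h1 : AnalyticAt ℂ (fun x : V => fun i => Q i x) x := by
      rw [analyticAt_pi_iff]
      exact fun i => h.eqs.an i x
    exact AnalyticAt.comp (g := (WithLp.toLp 2 : (κ → ℂ) → EuclideanSpace ℂ κ))
      (f := fun x : V => fun i => Q i x) ((EuclideanSpace.equiv κ ℂ).symm.analyticAt _) h1)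
    (fun c x => by
      unfold Nodal_Q
      rw [← WithLp.toLp_smul]
      congr 1
      funext i
      simp [h.eqs.smul]) (T := B) (fun x => by
      rw [h.eqs.mem_iff]
      unfold Nodal_Q
      constructor
      · rintro ⟨h1, h2⟩
        refine ⟨h1, ?_⟩
        have h3 : (fun i => Q i x) = (0 : κ → ℂ) := funext h2
        rw [h3]
        rfl
      · rintro ⟨h1, h2⟩
        refine ⟨h1, fun i => ?_⟩
        have h3 := congrFun (congrArg WithLp.ofLp h2) i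
        exact h3) (fun x hx => pairNodal_of_nodal h.opn h.sub (h.eqs.sub hx) hx (hn x (h.eqs.sub hx)))
      h.one_m h.one_j h.form h.noZeros h.pole
  have hcone : Pool.Agent.H14.PP.IsCone (L.symm ⁻¹' X : Set (EN N)) := isCone_transport L h.surf
  have hT's : ∀ x ∈ (L.symm ⁻¹' B : Set (EN N)), ∀ c : ℂ, c ≠ 0 → c • x ∈ (L.symm ⁻¹' B : Set (EN N)) := by
    intro x hx c hc
    show L.symm (c • x) ∈ B
    rw [map_smul]
    exact hBs _ hx c hc
  have hK's : ∀ x ∈ (L.symm ⁻¹' K : Set (EN N)), ∀ c : ℂ, c ≠ 0 → c • x ∈ (L.symm ⁻¹' K : Set (EN N)) := by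
    intro x hx c hc
    show L.symm (c • x) ∈ K
    rw [map_smul]
    exact hKs _ hx c hc
  have hK'0 : (0 : EN N) ∉ (L.symm ⁻¹' K : Set (EN N)) := fun h0 => hcone.zero_notMem (hKX h0)
  have e1 : coneOf (ptsOf (L.symm ⁻¹' K : Set (EN N))) = L.symm ⁻¹' K :=
    coneOf_ptsOf hK'0 hK's
  have e2 : coneOf (ptsOf ((L.symm ⁻¹' K : Set (EN N)) ∩ L.symm ⁻¹' B)) =
      (L.symm ⁻¹' K : Set (EN N)) ∩ L.symm ⁻¹' B :=
    coneOf_ptsOf (fun h0 => hK'0 h0.1)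
      (fun x hx c hc => ⟨hK's x hx.1 c hc, hT's x hx.2 c hc⟩)
  obtain ⟨K₁, hK₁, hK₁b⟩ := Pool.Agent.H14.PP.exists_rho_bound hcone heq
  have hM2 : MetricData (coneOf (ptsOf (L.symm ⁻¹' K : Set (EN N))))
      (coneOf (ptsOf ((L.symm ⁻¹' K : Set (EN N)) ∩ L.symm ⁻¹' B))) G
      (Pool.Agent.H14.PP.rho (fun y => Nodal_Q Q (L.symm y)) D) M c₀ C := by
    rw [e1, e2]
    exact hM
  have hbm : BrodyMod2 (L.symm ⁻¹' K : Set (EN N)) ((L.symm ⁻¹' K : Set (EN N)) ∩ L.symm ⁻¹' B) := by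
    intro F hF hFK hne' hord z
    refine ⟨hFK z, ?_⟩
    by_contra hzB
    have hall := h.brody (fun z => L.symm (F z)) (fun z => by
      refine ⟨fun z => L.symm (F z), ((L.symm : EN N →L[ℂ] V).analyticAt _).comp (hF.analyticAt z), ?_,
        Filter.Eventually.of_forall fun w => Pr.refl _⟩
      exact hne _ (hKX (hFK z))) hFK (hord.equiv L.symm) ⟨z, hzB⟩
    obtain ⟨a, b, hab⟩ := hne'
    obtain ⟨c, hc, e⟩ := hall a b
    refine hab c (L.symm.injective ?_)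
    rw [map_smul]
    exact e
  obtain ⟨L₁, hL₁, hkob⟩ := kobayashi_of_bound hM2 (by
    rw [e1]
    exact brody_bound2 hM hbm)
  set A : ℝ := ‖(L : V →L[ℂ] EN N)‖ with hA
  set A' : ℝ := ‖(L.symm : EN N →L[ℂ] V)‖ with hA'
  have hA0 : 0 ≤ A := norm_nonneg _
  have hA'0 : 0 ≤ A' := norm_nonneg _
  -- comparison of the sizes
  have hρ : ∀ x ∈ X, rhoS Q D x ≤ A ^ D *
      Pool.Agent.H14.PP.rho (fun y => Nodal_Q Q (L.symm y)) D (L x) := by
    intro x hx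
    have hx0 : 0 < ‖x‖ := norm_pos_iff.mpr (hne x hx)
    have hLx0 : 0 < ‖L x‖ := norm_pos_iff.mpr fun h0 => hne x hx (L.map_eq_zero_iff.mp h0)
    unfold rhoS Pool.Agent.H14.PP.rho
    simp only
    rw [L.symm_apply_apply, ← mul_div_assoc, div_le_div_iff₀ (by positivity) (by positivity)]
    have h1 : ‖fun i => Q i x‖ ≤ ‖Nodal_Q Q x‖ := by
      refine (pi_norm_le_iff_of_nonneg (norm_nonneg _)).mpr fun i => ?_
      exact PiLp.norm_apply_le (Nodal_Q Q x) i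
    have h2 : ‖L x‖ ≤ A * ‖x‖ := (L : V →L[ℂ] EN N).le_opNorm x
    calc ‖fun i => Q i x‖ * ‖L x‖ ^ D ≤ ‖Nodal_Q Q x‖ * (A * ‖x‖) ^ D := by gcongr
      _ = A ^ D * ‖Nodal_Q Q x‖ * ‖x‖ ^ D := by rw [mul_pow]; ring
  have hρ2 : ∀ x ∈ X, rhoS Q D x ≤ A ^ D * K₁ := by
    intro x hx
    refine (hρ x hx).trans (mul_le_mul_of_nonneg_left (hK₁b _ ?_) (by positivity))
    show L.symm (L x) ∈ X
    rwa [L.symm_apply_apply]
  refine ⟨M + 1, A ^ D * K₁ * ((A ^ D) ^ M * (A' * (L₁ * A))), by omega, by positivity,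
    fun f F hf hF hF0 hfF => ?_⟩
  have hf0 := (hf 0 (by simp)).2
  have hFX : F 0 ∈ X := (Pr.mem_iff hXs hfF.self_of_nhds).1 (hKX hf0)
  have hx1 : (L x₀).ofLp ≠ 0 := ofLp_ne_zero fun h0 => hne x₀ hx₀ (L.map_eq_zero_iff.mp h0)
  set p : ℂ → PN N := fun z => ptN (L x₀).ofLp hx1 (L (f z)).ofLp with hp
  have hLne : ∀ y : V, y ≠ 0 → (L y).ofLp ≠ 0 := fun y hy =>
    ofLp_ne_zero fun h0 => hy (L.map_eq_zero_iff.mp h0)
  have hLpr : ∀ {y y' : V}, Pr y y' → Pr (L y).ofLp (L y').ofLp := by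
    rintro y y' ⟨c, hc, rfl⟩
    exact ⟨c, hc, by rw [map_smul]; rfl⟩
  have hpoint : ∀ {z : ℂ} {y : V} (hy : y ≠ 0), Pr (f z) y →
      p z = Projectivization.mk ℂ (L y).ofLp (hLne y hy) := fun hy h1 =>
    ptN_eq _ _ _ (hLpr h1)
  have h1 := hkob p (fun z => L (F z)) (by
    intro z₀ hz₀
    rw [mem_ball_zero_iff] at hz₀
    obtain ⟨Φ, hΦ, hΦ0, he⟩ := (hf z₀ hz₀).1
    refine ⟨fun z => (L (Φ z)).ofLp, analyticAt_ofLp (((L : V →L[ℂ] EN N).analyticAt _).comp hΦ), ?_⟩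
    filter_upwards [he, hΦ.continuousAt.eventually_ne hΦ0] with z h2 h3
    exact ⟨hLne _ h3, hpoint h3 h2⟩) (by
    intro z hz
    rw [mem_ball_zero_iff] at hz
    have h2 := (hf z hz).2
    have h2X := hKX h2
    show L.symm (WithLp.toLp 2 (p z).rep) ∈ K
    rw [hpoint (hne _ h2X) ⟨1, one_ne_zero, (one_smul _ _).symm⟩]
    obtain ⟨a, ha, h4⟩ := rep_mk (V := Fin (N + 1) → ℂ) (hLne _ (hne _ h2X))
    rw [h4, WithLp.toLp_smul, WithLp.toLp_ofLp, map_smul, L.symm_apply_apply]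
    exact hKs _ h2 a ha) (((L : V →L[ℂ] EN N).analyticAt _).comp hF) (by
    filter_upwards [hfF, hF.continuousAt.eventually_ne hF0] with z h2 h3
    exact ⟨hLne _ h3, hpoint h3 h2⟩)
  have hd : deriv (fun z => L (F z)) 0 = L (deriv F 0) := by
    have h2 : HasDerivAt (fun z => L (F z)) (L (deriv F 0)) 0 :=
      (L : V →L[ℂ] EN N).hasFDerivAt.comp_hasDerivAt 0 hF.differentiableAt.hasDerivAt
    exact h2.deriv
  rw [hd] at h1
  have hLF0 : L (F 0) ≠ 0 := fun h0 => hF0 (L.map_eq_zero_iff.mp h0)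
  rw [Pool.Agent.H14.PP.fs_eq hLF0] at h1
  set a : ℂ := inner ℂ (L (F 0)) (L (deriv F 0)) / (‖L (F 0)‖ : ℂ) ^ 2 with ha
  refine ⟨a, ?_⟩
  have hLFn : 0 < ‖L (F 0)‖ := norm_pos_iff.mpr hLF0
  have h2 : L (deriv F 0) - a • L (F 0) = L (deriv F 0 - a • F 0) := by
    rw [map_sub, map_smul]
  rw [h2, ← mul_div_assoc, div_le_iff₀ hLFn] at h1
  have h3 : ‖deriv F 0 - a • F 0‖ ≤ A' * ‖L (deriv F 0 - a • F 0)‖ := by
    have := (L.symm : EN N →L[ℂ] V).le_opNorm (L (deriv F 0 - a • F 0))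
    have e : (L.symm : EN N →L[ℂ] V) (L (deriv F 0 - a • F 0)) = deriv F 0 - a • F 0 :=
      L.symm_apply_apply _
    rwa [e] at this
  have h4 : ‖L (F 0)‖ ≤ A * ‖F 0‖ := (L : V →L[ℂ] EN N).le_opNorm _
  set ρ₀ := Pool.Agent.H14.PP.rho (fun y => Nodal_Q Q (L.symm y)) D (L (F 0)) with hρ₀
  have hρ₀0 : 0 ≤ ρ₀ := Pool.Agent.H14.PP.rho_nonneg _ _ _
  have h5 := hρ _ hFX
  have h6 := hρ2 _ hFX
  have h7 := rhoS_nonneg Q D (F 0)
  calc rhoS Q D (F 0) ^ (M + 1) * ‖deriv F 0 - a • F 0‖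
      = rhoS Q D (F 0) * (rhoS Q D (F 0) ^ M * ‖deriv F 0 - a • F 0‖) := by rw [pow_succ]; ring
    _ ≤ A ^ D * K₁ * ((A ^ D * ρ₀) ^ M * (A' * ‖L (deriv F 0 - a • F 0)‖)) := by gcongr
    _ = A ^ D * K₁ * ((A ^ D) ^ M * (A' * (ρ₀ ^ M * ‖L (deriv F 0 - a • F 0)‖))) := by
        rw [mul_pow]; ring
    _ ≤ A ^ D * K₁ * ((A ^ D) ^ M * (A' * (L₁ * ‖L (F 0)‖))) := by gcongr
    _ ≤ A ^ D * K₁ * ((A ^ D) ^ M * (A' * (L₁ * (A * ‖F 0‖)))) := by gcongr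
    _ = A ^ D * K₁ * ((A ^ D) ^ M * (A' * (L₁ * A))) * ‖F 0‖ := by ring

end Pool.Agent.H14.KB
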